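import Pool.Agent.W207.SW.SpecS

/-!
Project SW (helper207), problem MP_8958e8_nt: part SW-PLG (helper654).
-/

set_option autoImplicit false

open Complex Filter Topology Set MeasureTheory
open scoped BigOperators ComplexConjugate

namespace Pool.Agent.W654.SW

open W207.SW

/-- the bound near `Λ` in the upper half plane -/
theorem upper (hPL : S_PL) {Λ κ R M C T ρ0 : ℝ} (hΛ : 0 < Λ) (hκ : 0 < κ) (hR : 0 < R)
    (hM : 0 ≤ M) (hT : 2 + 2 * Real.pi ≤ κ / Real.pi * (T - C))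
    (hρT : ρ0 ≤ Real.exp (-T))
    (hGB : ∀ z : ℂ, 0 ≤ z.im → ‖z - Λ‖ ≤ ρ0 →
      z.im / Real.pi * (Real.log (1 / ‖z - Λ‖) - C) ≤ (GG Λ z).re)
    {f : ℂ → ℂ} (hf : Differentiable ℂ f)
    (hf1 : ∀ z, ‖f z‖ ≤ M * (1 + ‖z‖) * Real.exp (2 * Real.pi * R * |z.im|))
    (hf2 : ∀ x : ℝ, |x| < Λ → ‖f x‖ ≤ M * Real.exp (-(κ * (Λ - |x|) * R)))
    (z : ℂ) (hz : 0 ≤ z.im) (hzΛ : ‖z - Λ‖ ≤ ρ0) :
    ‖f z‖ ≤ 2 * M * (Λ + ρ0 + 1) * Real.exp (-(R * 2 * z.im)) := by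
  have h1 := hPL Λ κ R M f hΛ hκ hR hM hf hf1 hf2 z hz
  have hpi := Real.pi_pos
  have h2 : z.im / Real.pi * (T - C) ≤ (GG Λ z).re := by
    rcases hz.eq_or_lt with h0 | h0
    · have := hGB z hz hzΛ
      rw [← h0] at this ⊢
      simpa using this
    · have hne : 0 < ‖z - Λ‖ := by
        rw [norm_pos_iff]
        intro h
        have : (z - Λ).im = 0 := by rw [h]; simp
        simp at this
        linarith
      have hlog : T ≤ Real.log (1 / ‖z - Λ‖) := by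
        rw [one_div, Real.log_inv]
        have := Real.log_le_log hne (hzΛ.trans hρT)
        rw [Real.log_exp] at this
        linarith
      refine le_trans ?_ (hGB z hz hzΛ)
      exact mul_le_mul_of_nonneg_left (by linarith) (by positivity)
  have h3 : 2 * Real.pi * R * z.im - κ * R * (GG Λ z).re ≤ -(R * 2 * z.im) := by
    have a1 : κ * R * (z.im / Real.pi * (T - C)) ≤ κ * R * (GG Λ z).re :=
      mul_le_mul_of_nonneg_left h2 (by positivity)
    have a2 : κ * R * (z.im / Real.pi * (T - C)) = R * z.im * (κ / Real.pi * (T - C)) := by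
      field_simp
    have a3 : R * z.im * (2 + 2 * Real.pi) ≤ R * z.im * (κ / Real.pi * (T - C)) :=
      mul_le_mul_of_nonneg_left hT (by positivity)
    nlinarith
  have h4 : ‖z + I‖ ≤ Λ + ρ0 + 1 := by
    have e : z + I = (z - Λ) + (Λ : ℂ) + I := by ring
    rw [e]
    calc ‖(z - Λ) + (Λ : ℂ) + I‖ ≤ ‖(z - Λ) + (Λ : ℂ)‖ + ‖I‖ := norm_add_le _ _
      _ ≤ ‖z - Λ‖ + ‖(Λ : ℂ)‖ + ‖I‖ := by gcongr; exact norm_add_le _ _
      _ ≤ ρ0 + Λ + 1 := by
        rw [Complex.norm_real, Real.norm_eq_abs, abs_of_pos hΛ, Complex.norm_I]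
        linarith
      _ = Λ + ρ0 + 1 := by ring
  calc ‖f z‖ ≤ 2 * M * ‖z + I‖ * Real.exp (2 * Real.pi * R * z.im - κ * R * (GG Λ z).re) := h1
    _ ≤ 2 * M * (Λ + ρ0 + 1) * Real.exp (-(R * 2 * z.im)) := by
      have h5 : 0 ≤ Λ + ρ0 + 1 := (norm_nonneg _).trans h4
      exact mul_le_mul (mul_le_mul_of_nonneg_left h4 (by positivity)) (Real.exp_le_exp.2 h3)
        (Real.exp_pos _).le (mul_nonneg (by positivity) h5)

/-- the bound near `Λ` -/
theorem both (hPL : S_PL) {Λ κ R M C T ρ0 : ℝ} (hΛ : 0 < Λ) (hκ : 0 < κ) (hR : 0 < R)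
    (hM : 0 ≤ M) (hT : 2 + 2 * Real.pi ≤ κ / Real.pi * (T - C))
    (hρT : ρ0 ≤ Real.exp (-T))
    (hGB : ∀ z : ℂ, 0 ≤ z.im → ‖z - Λ‖ ≤ ρ0 →
      z.im / Real.pi * (Real.log (1 / ‖z - Λ‖) - C) ≤ (GG Λ z).re)
    {f : ℂ → ℂ} (hf : Differentiable ℂ f)
    (hf1 : ∀ z, ‖f z‖ ≤ M * (1 + ‖z‖) * Real.exp (2 * Real.pi * R * |z.im|))
    (hf2 : ∀ x : ℝ, |x| < Λ → ‖f x‖ ≤ M * Real.exp (-(κ * (Λ - |x|) * R)))
    (z : ℂ) (hzΛ : ‖z - Λ‖ ≤ ρ0) :
    ‖f z‖ ≤ 2 * M * (Λ + ρ0 + 1) * Real.exp (-(R * 2 * |z.im|)) := by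
  rcases le_total 0 z.im with h | h
  · rw [abs_of_nonneg h]
    exact upper hPL hΛ hκ hR hM hT hρT hGB hf hf1 hf2 z h hzΛ
  · have hg : Differentiable ℂ (conj ∘ f ∘ conj) := fun w =>
      differentiableAt_conj_conj_iff.2 (hf (conj w))
    have hg1 : ∀ w, ‖(conj ∘ f ∘ conj) w‖ ≤
        M * (1 + ‖w‖) * Real.exp (2 * Real.pi * R * |w.im|) := by
      intro w
      have := hf1 (conj w)
      rw [Complex.norm_conj, Complex.conj_im, abs_neg] at this
      show ‖conj (f (conj w))‖ ≤ _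
      rw [Complex.norm_conj]
      exact this
    have hg2 : ∀ x : ℝ, |x| < Λ → ‖(conj ∘ f ∘ conj) (x : ℂ)‖ ≤
        M * Real.exp (-(κ * (Λ - |x|) * R)) := by
      intro x hx
      show ‖conj (f (conj (x : ℂ)))‖ ≤ _
      rw [Complex.norm_conj, Complex.conj_ofReal]
      exact hf2 x hx
    have h5 := upper hPL hΛ hκ hR hM hT hρT hGB hg hg1 hg2 (conj z)
      (by rw [Complex.conj_im]; linarith) (by
        have e : conj z - (Λ : ℂ) = conj (z - Λ) := by rw [map_sub, Complex.conj_ofReal]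
        rw [e, Complex.norm_conj]
        exact hzΛ)
    have e6 : (conj ∘ f ∘ conj) (conj z) = conj (f z) := by
      show conj (f (conj (conj z))) = _
      rw [Complex.conj_conj]
    rw [e6, Complex.norm_conj, Complex.conj_im] at h5
    rw [abs_of_nonpos h]
    exact h5

theorem near (hPL : S_PL) (hCIR : S_CIR) {Λ κ R M C T r : ℝ} (hΛ : 0 < Λ) (hκ : 0 < κ)
    (hR : 0 < R) (hM : 0 ≤ M) (hr : 0 < r) (hT : 2 + 2 * Real.pi ≤ κ / Real.pi * (T - C))
    (hρT : 2 * r ≤ Real.exp (-T))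
    (hGB : ∀ z : ℂ, 0 ≤ z.im → ‖z - Λ‖ ≤ 2 * r →
      z.im / Real.pi * (Real.log (1 / ‖z - Λ‖) - C) ≤ (GG Λ z).re)
    {f : ℂ → ℂ} (hf : Differentiable ℂ f)
    (hf1 : ∀ z, ‖f z‖ ≤ M * (1 + ‖z‖) * Real.exp (2 * Real.pi * R * |z.im|))
    (hf2 : ∀ x : ℝ, |x| < Λ → ‖f x‖ ≤ M * Real.exp (-(κ * (Λ - |x|) * R)))
    (x : ℝ) (hx1 : Λ - r ≤ x) (hx2 : x ≤ Λ + r) :
    ‖f x‖ ≤ Real.exp 1 * (2 * M * (Λ + 2 * r + 1)) * Real.exp (-(R * r)) := by
  refine hCIR 2 r R (2 * M * (Λ + 2 * r + 1)) (x : ℂ) f le_rfl hr hR (by positivity) hf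
    (Complex.ofReal_im x) ?_
  intro z hz
  refine both hPL hΛ hκ hR hM hT hρT hGB hf hf1 hf2 z ?_
  have e : z - (Λ : ℂ) = (z - (x : ℂ)) + ((x - Λ : ℝ) : ℂ) := by push_cast; ring
  rw [e]
  calc ‖(z - (x : ℂ)) + ((x - Λ : ℝ) : ℂ)‖ ≤ ‖z - (x : ℂ)‖ + ‖((x - Λ : ℝ) : ℂ)‖ :=
        norm_add_le _ _
    _ ≤ r + r := by
      rw [hz, Complex.norm_real, Real.norm_eq_abs]
      have : |x - Λ| ≤ r := abs_le.2 ⟨by linarith, by linarith⟩
      linarith
    _ = 2 * r := by ring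

theorem plg : S_GB → S_PL → S_CIR → S_PLG := by
  intro hGB hPL hCIR Λ κ hΛ hκ
  obtain ⟨C, r0, hC, hr0, hG⟩ := hGB Λ hΛ
  have hpi := Real.pi_pos
  set T : ℝ := C + (2 + 2 * Real.pi) * Real.pi / κ with hT
  have hT1 : 2 + 2 * Real.pi ≤ κ / Real.pi * (T - C) := by
    rw [hT]
    have : κ / Real.pi * (C + (2 + 2 * Real.pi) * Real.pi / κ - C) = 2 + 2 * Real.pi := by
      field_simp
      ring
    rw [this]
  set r : ℝ := min (min r0 (Real.exp (-T))) Λ / 2 with hr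
  have hr1 : 0 < r := by
    have := Real.exp_pos (-T)
    positivity
  have hr2 : 2 * r = min (min r0 (Real.exp (-T))) Λ := by rw [hr]; ring
  have hr3 : 2 * r ≤ r0 := by rw [hr2]; exact (min_le_left _ _).trans (min_le_left _ _)
  have hr4 : 2 * r ≤ Real.exp (-T) := by
    rw [hr2]; exact (min_le_left _ _).trans (min_le_right _ _)
  have hr5 : 2 * r ≤ Λ := by rw [hr2]; exact min_le_right _ _
  have hG' : ∀ z : ℂ, 0 ≤ z.im → ‖z - Λ‖ ≤ 2 * r →
      z.im / Real.pi * (Real.log (1 / ‖z - Λ‖) - C) ≤ (GG Λ z).re := fun z h1 h2 =>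
    hG z h1 (h2.trans hr3)
  refine ⟨r, min (κ * r) r, Real.exp 1 * (2 * (Λ + 2 * r + 1)) + 1, hr1, by positivity,
    by positivity, ?_⟩
  intro R M f hR hM hf hf1 hf2 x hx
  have hc1 : Real.exp (-(R * r)) ≤ Real.exp (-(min (κ * r) r * R)) := by
    rw [Real.exp_le_exp]
    have : min (κ * r) r * R ≤ r * R := mul_le_mul_of_nonneg_right (min_le_right _ _) hR.le
    linarith
  have hc2 : Real.exp (-(κ * r * R)) ≤ Real.exp (-(min (κ * r) r * R)) := by
    rw [Real.exp_le_exp]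
    have : min (κ * r) r * R ≤ κ * r * R := mul_le_mul_of_nonneg_right (min_le_left _ _) hR.le
    linarith
  have hE := Real.exp_pos (-(min (κ * r) r * R))
  have hnear : Real.exp 1 * (2 * M * (Λ + 2 * r + 1)) * Real.exp (-(R * r)) ≤
      (Real.exp 1 * (2 * (Λ + 2 * r + 1)) + 1) * M * Real.exp (-(min (κ * r) r * R)) := by
    calc Real.exp 1 * (2 * M * (Λ + 2 * r + 1)) * Real.exp (-(R * r)) ≤
          Real.exp 1 * (2 * M * (Λ + 2 * r + 1)) * Real.exp (-(min (κ * r) r * R)) :=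
          mul_le_mul_of_nonneg_left hc1 (by positivity)
      _ ≤ (Real.exp 1 * (2 * (Λ + 2 * r + 1)) + 1) * M * Real.exp (-(min (κ * r) r * R)) := by
          refine mul_le_mul_of_nonneg_right ?_ hE.le
          nlinarith [Real.exp_pos 1]
  by_cases h1 : |x| ≤ Λ - r
  · have h2 := hf2 x (by linarith)
    calc ‖f x‖ ≤ M * Real.exp (-(κ * (Λ - |x|) * R)) := h2
      _ ≤ M * Real.exp (-(κ * r * R)) := by
        refine mul_le_mul_of_nonneg_left (Real.exp_le_exp.2 ?_) hM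
        have : κ * r * R ≤ κ * (Λ - |x|) * R :=
          mul_le_mul_of_nonneg_right (mul_le_mul_of_nonneg_left (by linarith) hκ.le) hR.le
        linarith
      _ ≤ M * Real.exp (-(min (κ * r) r * R)) := mul_le_mul_of_nonneg_left hc2 hM
      _ ≤ (Real.exp 1 * (2 * (Λ + 2 * r + 1)) + 1) * M * Real.exp (-(min (κ * r) r * R)) := by
        refine mul_le_mul_of_nonneg_right ?_ hE.le
        have : 0 ≤ Real.exp 1 * (2 * (Λ + 2 * r + 1)) * M := by positivity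
        linarith
  · push Not at h1
    rcases le_total 0 x with h0 | h0
    · rw [abs_of_nonneg h0] at h1 hx
      exact (near hPL hCIR hΛ hκ hR hM hr1 hT1 hr4 hG' hf hf1 hf2 x h1.le hx).trans hnear
    · rw [abs_of_nonpos h0] at h1 hx
      have hg : Differentiable ℂ (fun z => f (-z)) := hf.comp differentiable_neg
      have hg1 : ∀ z, ‖(fun z => f (-z)) z‖ ≤
          M * (1 + ‖z‖) * Real.exp (2 * Real.pi * R * |z.im|) := by
        intro z
        have := hf1 (-z)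
        rw [norm_neg, Complex.neg_im, abs_neg] at this
        exact this
      have hg2 : ∀ x : ℝ, |x| < Λ → ‖(fun z => f (-z)) (x : ℂ)‖ ≤
          M * Real.exp (-(κ * (Λ - |x|) * R)) := by
        intro y hy
        have := hf2 (-y) (by rwa [abs_neg])
        rw [abs_neg, Complex.ofReal_neg] at this
        exact this
      have h2 := near hPL hCIR hΛ hκ hR hM hr1 hT1 hr4 hG' hg hg1 hg2 (-x) h1.le hx
      have e : f (-((-x : ℝ) : ℂ)) = f x := by
        rw [Complex.ofReal_neg, neg_neg]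
      have h3 : ‖f (-((-x : ℝ) : ℂ))‖ ≤ _ := h2
      rw [e] at h3
      exact h3.trans hnear

end Pool.Agent.W654.SW
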